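import Pool.Agent.Helper34.CP.Goals

/-!
# Packet AV: algebras generated by a type I algebra and a set `V` with `V* A V ⊆ A`, `V* V ⊆ A`
-/

namespace Pool.Agent.Helper70.CP

open Pool.Agent.Helper39.Uct Pool.Agent.Helper34.CP

section

variable {B : Type} [NonUnitalCStarAlgebra B]

/-- Maps of closed spans. -/
lemma mem_clos {S : Set B} {U : Submodule ℂ B} (hU : IsClosed (U : Set B)) (f : B → B)
    (hc : Continuous f) (ha : ∀ x y, f (x + y) = f x + f y)
    (hs : ∀ (c : ℂ) x, ∃ c' : ℂ, f (c • x) = c' • f x) (h : ∀ s ∈ S, f s ∈ U) :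
    ∀ x ∈ (Submodule.span ℂ S).topologicalClosure, f x ∈ U := by
  intro x hx
  have h0 : f 0 = 0 := by
    have h1 := ha 0 0
    rw [add_zero] at h1
    exact left_eq_add.1 h1
  have h1 : ∀ y ∈ Submodule.span ℂ S, f y ∈ U := by
    intro y hy
    induction hy using Submodule.span_induction with
    | mem y hy => exact h y hy
    | zero => rw [h0]; exact U.zero_mem
    | add a b _ _ ha' hb' => rw [ha]; exact U.add_mem ha' hb'
    | smul c a _ ha' =>
      obtain ⟨c', hc'⟩ := hs c a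
      rw [hc']
      exact U.smul_mem c' ha'
  have h2 : closure ((Submodule.span ℂ S : Submodule ℂ B) : Set B) ⊆ f ⁻¹' (U : Set B) :=
    closure_minimal (fun y hy => h1 y hy) (hU.preimage hc)
  exact h2 hx

lemma mem_clos_left {S : Set B} {U : Submodule ℂ B} (hU : IsClosed (U : Set B)) (r : B)
    (h : ∀ s ∈ S, r * s ∈ U) : ∀ x ∈ (Submodule.span ℂ S).topologicalClosure, r * x ∈ U :=
  mem_clos hU (fun x => r * x) (by fun_prop) (fun x y => mul_add _ _ _)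
    (fun c x => ⟨c, mul_smul_comm _ _ _⟩) h

lemma mem_clos_right {S : Set B} {U : Submodule ℂ B} (hU : IsClosed (U : Set B)) (r : B)
    (h : ∀ s ∈ S, s * r ∈ U) : ∀ x ∈ (Submodule.span ℂ S).topologicalClosure, x * r ∈ U :=
  mem_clos hU (fun x => x * r) (by fun_prop) (fun x y => add_mul _ _ _)
    (fun c x => ⟨c, smul_mul_assoc _ _ _⟩) h

lemma mem_clos_star {S : Set B} {U : Submodule ℂ B} (hU : IsClosed (U : Set B)) (r : B)
    (h : ∀ s ∈ S, star s * r ∈ U) :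
    ∀ x ∈ (Submodule.span ℂ S).topologicalClosure, star x * r ∈ U :=
  mem_clos hU (fun x => star x * r) (by fun_prop) (fun x y => by rw [star_add, add_mul])
    (fun c x => ⟨star c, by rw [star_smul, smul_mul_assoc]⟩) h

lemma clos_closed (S : Set B) :
    IsClosed (((Submodule.span ℂ S).topologicalClosure : Submodule ℂ B) : Set B) :=
  Submodule.isClosed_topologicalClosure _

lemma sub_clos {S : Set B} {x : B} (h : x ∈ S) : x ∈ (Submodule.span ℂ S).topologicalClosure :=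
  Submodule.le_topologicalClosure _ (Submodule.subset_span h)

variable {A : Type} [NonUnitalCStarAlgebra A] (ι : A →⋆ₙₐ[ℂ] B) (V : Set B)

/-- Products of one element of `V` with elements of the range of `ι`. -/
inductive W0 : B → Prop
  | base (v : B) (hv : v ∈ V) : W0 v
  | lm (a : A) (w : B) (hw : W0 w) : W0 (ι a * w)
  | rm (a : A) (w : B) (hw : W0 w) : W0 (w * ι a)

/-- The range of `ι`. -/
def RR : Submodule ℂ B where
  carrier := Set.range ι
  add_mem' := by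
    rintro _ _ ⟨a, rfl⟩ ⟨b, rfl⟩
    exact ⟨a + b, map_add _ _ _⟩
  zero_mem' := ⟨0, map_zero _⟩
  smul_mem' := by
    rintro c _ ⟨a, rfl⟩
    exact ⟨c • a, map_smul _ _ _⟩

lemma mem_RR {x : B} : x ∈ RR ι ↔ ∃ a, ι a = x := Iff.rfl

lemma W0_base {v w : B} (hv : v ∈ V) (hw : W0 ι V w)
    (h1 : ∀ v ∈ V, ∀ w ∈ V, star v * w ∈ Set.range ι)
    (h2 : ∀ v ∈ V, ∀ a, ∀ w ∈ V, star v * ι a * w ∈ Set.range ι) :
    star v * w ∈ RR ι ∧ ∀ c, star v * ι c * w ∈ RR ι := by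
  induction hw with
  | base w hw => exact ⟨h1 v hv w hw, fun c => h2 v hv c w hw⟩
  | lm a w _ ih =>
    refine ⟨?_, fun c => ?_⟩
    · rw [← mul_assoc]; exact ih.2 a
    · rw [mul_assoc, ← mul_assoc (ι c), ← map_mul, ← mul_assoc]; exact ih.2 _
  | rm a w _ ih =>
    refine ⟨?_, fun c => ?_⟩
    · obtain ⟨b, hb⟩ := ih.1
      exact ⟨b * a, by rw [map_mul, hb, mul_assoc]⟩
    · obtain ⟨b, hb⟩ := ih.2 c
      exact ⟨b * a, by rw [map_mul, hb, mul_assoc]⟩

lemma W0_star {w w' : B} (hw : W0 ι V w) (hw' : W0 ι V w')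
    (h1 : ∀ v ∈ V, ∀ w ∈ V, star v * w ∈ Set.range ι)
    (h2 : ∀ v ∈ V, ∀ a, ∀ w ∈ V, star v * ι a * w ∈ Set.range ι) :
    star w * w' ∈ RR ι ∧ ∀ c, star w * ι c * w' ∈ RR ι := by
  induction hw with
  | base v hv => exact W0_base ι V hv hw' h1 h2
  | lm a w _ ih =>
    refine ⟨?_, fun c => ?_⟩
    · rw [star_mul, ← map_star]; exact ih.2 _
    · rw [star_mul, ← map_star, mul_assoc (star w), ← map_mul]; exact ih.2 _
  | rm a w _ ih =>
    refine ⟨?_, fun c => ?_⟩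
    · obtain ⟨b, hb⟩ := ih.1
      exact ⟨star a * b, by rw [map_mul, hb, map_star, star_mul, mul_assoc]⟩
    · obtain ⟨b, hb⟩ := ih.2 c
      exact ⟨star a * b, by rw [map_mul, hb, map_star, star_mul, mul_assoc, mul_assoc,
        mul_assoc]⟩

/-- The closed span of the products. -/
def WW : Submodule ℂ B := (Submodule.span ℂ {w | W0 ι V w}).topologicalClosure

/-- The system. -/
def EE : ℕ → Submodule ℂ B
  | 0 => RR ι
  | 1 => WW ι V
  | n + 2 => (Submodule.span ℂ {z | ∃ w ∈ WW ι V, ∃ y ∈ EE (n + 1), z = w * y}).topologicalClosure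

lemma EE_zero : EE ι V 0 = RR ι := by rw [EE]

lemma EE_one : EE ι V 1 = WW ι V := by rw [EE]

lemma EE_two (n : ℕ) : EE ι V (n + 2) =
    (Submodule.span ℂ {z | ∃ w ∈ WW ι V, ∃ y ∈ EE ι V (n + 1), z = w * y}).topologicalClosure := by
  rw [EE]

lemma RR_mul {x y : B} (hx : x ∈ RR ι) (hy : y ∈ RR ι) : x * y ∈ RR ι := by
  obtain ⟨a, rfl⟩ := hx
  obtain ⟨b, rfl⟩ := hy
  exact ⟨a * b, map_mul _ _ _⟩

lemma RR_star {x : B} (hx : x ∈ RR ι) : star x ∈ RR ι := by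
  obtain ⟨a, rfl⟩ := hx
  exact ⟨star a, map_star _ _⟩

lemma RR_closed : IsClosed (RR ι : Set B) := t_RC _ _ ι

lemma EE_closed : ∀ n, IsClosed (EE ι V n : Set B)
  | 0 => by rw [EE_zero]; exact RR_closed ι
  | 1 => by rw [EE_one]; exact clos_closed _
  | n + 2 => by rw [EE_two]; exact clos_closed _

lemma WW_left {r x : B} (hr : r ∈ RR ι) (hx : x ∈ WW ι V) : r * x ∈ WW ι V := by
  obtain ⟨a, rfl⟩ := hr
  exact mem_clos_left (clos_closed _) _ (fun s hs => sub_clos (W0.lm a s hs)) x hx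

lemma WW_right {r x : B} (hr : r ∈ RR ι) (hx : x ∈ WW ι V) : x * r ∈ WW ι V := by
  obtain ⟨a, rfl⟩ := hr
  exact mem_clos_right (clos_closed _) _ (fun s hs => sub_clos (W0.rm a s hs)) x hx

lemma EE_left {r : B} (hr : r ∈ RR ι) : ∀ n, ∀ x ∈ EE ι V n, r * x ∈ EE ι V n
  | 0, x, hx => by rw [EE_zero] at hx ⊢; exact RR_mul ι hr hx
  | 1, x, hx => by rw [EE_one] at hx ⊢; exact WW_left ι V hr hx
  | n + 2, x, hx => by
    rw [EE_two] at hx ⊢
    refine mem_clos_left (clos_closed _) _ ?_ x hx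
    rintro _ ⟨w, hw, y, hy, rfl⟩
    rw [← mul_assoc]
    exact sub_clos ⟨r * w, WW_left ι V hr hw, y, hy, rfl⟩

lemma EE_right {r : B} (hr : r ∈ RR ι) : ∀ n, ∀ x ∈ EE ι V n, x * r ∈ EE ι V n
  | 0, x, hx => by rw [EE_zero] at hx ⊢; exact RR_mul ι hx hr
  | 1, x, hx => by rw [EE_one] at hx ⊢; exact WW_right ι V hr hx
  | n + 2, x, hx => by
    have ih := EE_right hr (n + 1)
    rw [EE_two] at hx ⊢
    refine mem_clos_right (clos_closed _) _ ?_ x hx
    rintro _ ⟨w, hw, y, hy, rfl⟩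
    rw [mul_assoc]
    exact sub_clos ⟨w, hw, y * r, ih y hy, rfl⟩

lemma WW_mul {w x : B} (hw : w ∈ WW ι V) : ∀ n, x ∈ EE ι V n → w * x ∈ EE ι V (n + 1)
  | 0, hx => by rw [EE_zero] at hx; rw [EE_one]; exact WW_right ι V hx hw
  | n + 1, hx => by rw [EE_two]; exact sub_clos ⟨w, hw, x, hx, rfl⟩

lemma EE_mul (n : ℕ) {y : B} (hy : y ∈ EE ι V n) : ∀ m, ∀ x ∈ EE ι V m, x * y ∈ EE ι V (m + n)
  | 0, x, hx => by
    rw [EE_zero] at hx
    rw [zero_add]
    exact EE_left ι V hx n y hy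
  | 1, x, hx => by
    rw [EE_one] at hx
    rw [add_comm 1 n]
    exact WW_mul ι V hx n hy
  | m + 2, x, hx => by
    have ih := EE_mul n hy (m + 1)
    have e : m + 2 + n = (m + 1 + n) + 1 := by ring
    rw [EE_two] at hx
    rw [e]
    refine mem_clos_right (EE_closed ι V _) _ ?_ x hx
    rintro _ ⟨w, hw, z, hz, rfl⟩
    rw [mul_assoc]
    exact WW_mul ι V hw _ (ih z hz)

variable {V}

lemma WW_star (h1 : ∀ v ∈ V, ∀ w ∈ V, star v * w ∈ Set.range ι)
    (h2 : ∀ v ∈ V, ∀ a, ∀ w ∈ V, star v * ι a * w ∈ Set.range ι) {w w' : B} (hw : w ∈ WW ι V)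
    (hw' : w' ∈ WW ι V) : star w * w' ∈ RR ι := by
  refine mem_clos_star (RR_closed ι) _ (fun s hs => ?_) w hw
  exact mem_clos_left (RR_closed ι) _ (fun t ht => (W0_star ι V hs ht h1 h2).1) w' hw'

lemma EE_starW (h1 : ∀ v ∈ V, ∀ w ∈ V, star v * w ∈ Set.range ι)
    (h2 : ∀ v ∈ V, ∀ a, ∀ w ∈ V, star v * ι a * w ∈ Set.range ι) {w : B} (hw : w ∈ WW ι V) :
    ∀ n, ∀ x ∈ EE ι V (n + 1), star w * x ∈ EE ι V n
  | 0, x, hx => by
    rw [zero_add, EE_one] at hx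
    rw [EE_zero]
    exact WW_star ι h1 h2 hw hx
  | n + 1, x, hx => by
    rw [show n + 1 + 1 = n + 2 from rfl, EE_two] at hx
    refine mem_clos_left (EE_closed ι V _) _ ?_ x hx
    rintro _ ⟨w', hw', y, hy, rfl⟩
    rw [← mul_assoc]
    exact EE_left ι V (WW_star ι h1 h2 hw hw') _ y hy

lemma EE_star (h1 : ∀ v ∈ V, ∀ w ∈ V, star v * w ∈ Set.range ι)
    (h2 : ∀ v ∈ V, ∀ a, ∀ w ∈ V, star v * ι a * w ∈ Set.range ι) (n : ℕ) :
    ∀ m, ∀ x ∈ EE ι V m, ∀ y ∈ EE ι V (m + n), star x * y ∈ EE ι V n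
  | 0, x, hx, y, hy => by
    rw [EE_zero] at hx
    rw [zero_add] at hy
    exact EE_left ι V (RR_star ι hx) n y hy
  | 1, x, hx, y, hy => by
    rw [EE_one] at hx
    rw [add_comm 1 n] at hy
    exact EE_starW ι h1 h2 hx n y hy
  | m + 2, x, hx, y, hy => by
    have ih := EE_star h1 h2 n (m + 1)
    have e : m + 2 + n = (m + 1 + n) + 1 := by ring
    rw [EE_two] at hx
    rw [e] at hy
    refine mem_clos_star (EE_closed ι V _) _ ?_ x hx
    rintro _ ⟨w, hw, z, hz, rfl⟩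
    rw [star_mul, mul_assoc]
    exact ih z hz _ (EE_starW ι h1 h2 hw _ y hy)

end

/-- Packet AV. -/
theorem AV (CP : S_CP) : S_AV := by
  intro 𝒞 h𝒞 A B _ _ _ ι V hA h1 h2 hg
  refine CP 𝒞 h𝒞 B (EE ι V) ⟨EE_closed ι V, ?_, ?_, ?_, ?_⟩ ⟨A, _, hA, ι, ?_⟩
  · intro x hx
    rw [EE_zero] at hx ⊢
    exact RR_star ι hx
  · intro m n x hx y hy
    exact EE_mul ι V n hy m x hx
  · intro m n x hx y hy
    exact EE_star ι h1 h2 n m x hx y hy
  · intro S hS hE b
    refine hg S hS ?_ ?_ b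
    · intro x hx
      exact hE 0 x (by rw [EE_zero]; exact hx)
    · intro x hx
      exact hE 1 x (by rw [EE_one]; exact sub_clos (W0.base x hx))
  · rw [EE_zero]
    rfl

end Pool.Agent.Helper70.CP
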